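import Pool.Agent.H499R2.NDExc2

set_option autoImplicit false

/-! Eventually constant properties on residue classes; densities by approximation. -/

namespace Pool.Agent.X16.EE

open Finset Filter Topology
open Pool.Agent.H499R2.ND Pool.Agent.H320R2.PD
open Pool.Agent.Helper894.Collatz (od er)

/-- eventually constant on the residue class `c` modulo `q` -/
def EC (q c : ℕ) (D : ℕ → Prop) : Prop :=
  (∀ᶠ n : ℕ in atTop, n % q = c → D n) ∨ (∀ᶠ n : ℕ in atTop, n % q = c → ¬ D n)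

theorem EC.and {q c : ℕ} {D E : ℕ → Prop} (hD : EC q c D) (hE : EC q c E) :
    EC q c (fun n => D n ∧ E n) := by
  rcases hD with h | h
  · rcases hE with h' | h'
    · left
      filter_upwards [h, h'] with n a b hn
      exact ⟨a hn, b hn⟩
    · right
      filter_upwards [h'] with n a hn hh
      exact a hn hh.2
  · right
    filter_upwards [h] with n a hn hh
    exact a hn hh.1

theorem EC.not {q c : ℕ} {D : ℕ → Prop} (hD : EC q c D) : EC q c (fun n => ¬ D n) := by
  rcases hD with h | h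
  · right
    filter_upwards [h] with n a hn hh
    exact hh (a hn)
  · left
    exact h

theorem EC.congr {q c : ℕ} {D E : ℕ → Prop} (hD : EC q c D) (h : ∀ n, D n ↔ E n) : EC q c E := by
  have : D = E := funext fun n => propext (h n)
  rwa [← this]

theorem EC.ball {ι : Type*} {q c : ℕ} (s : Finset ι) {D : ι → ℕ → Prop} (h : ∀ i ∈ s, EC q c (D i)) :
    EC q c (fun n => ∀ i ∈ s, D i n) := by
  classical
  induction s using Finset.induction_on with
  | empty =>
    left
    exact Eventually.of_forall fun n _ i hi => absurd hi (Finset.notMem_empty i)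
  | insert a s ha ih =>
    have h1 := (h a (mem_insert_self a s)).and (ih fun i hi => h i (mem_insert_of_mem hi))
    refine h1.congr fun n => ?_
    constructor
    · rintro ⟨h2, h3⟩ i hi
      rcases mem_insert.1 hi with rfl | hi
      · exact h2
      · exact h3 i hi
    · intro h2
      exact ⟨h2 a (mem_insert_self a s), fun i hi => h2 i (mem_insert_of_mem hi)⟩

theorem EC.bex {ι : Type*} {q c : ℕ} (s : Finset ι) {D : ι → ℕ → Prop} (h : ∀ i ∈ s, EC q c (D i)) :
    EC q c (fun n => ∃ i ∈ s, D i n) := by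
  refine (EC.ball s (D := fun i n => ¬ D i n) fun i hi => (h i hi).not).not.congr fun n => ?_
  push Not
  rfl

/-- eventually affine on the residue class -/
def EA (q c : ℕ) (f : ℕ → ℕ) : Prop :=
  ∃ α β : ℝ, ∀ᶠ n : ℕ in atTop, n % q = c → (f n : ℝ) = α * n + β

theorem EC.le {q c : ℕ} {f g : ℕ → ℕ} (hf : EA q c f) (hg : EA q c g) :
    EC q c (fun n => f n ≤ g n) := by
  obtain ⟨α, β, hf⟩ := hf
  obtain ⟨α', β', hg⟩ := hg
  rcases lt_trichotomy α α' with h | h | h
  · left
    have h1 : ∀ᶠ n : ℕ in atTop, (β - β') / (α' - α) ≤ (n : ℝ) :=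
      tendsto_natCast_atTop_atTop.eventually_ge_atTop _
    filter_upwards [hf, hg, h1] with n a b c hn
    rw [div_le_iff₀ (by linarith)] at c
    have : (f n : ℝ) ≤ g n := by rw [a hn, b hn]; nlinarith
    exact_mod_cast this
  · subst h
    by_cases hb : β ≤ β'
    · left
      filter_upwards [hf, hg] with n a b hn
      have : (f n : ℝ) ≤ g n := by rw [a hn, b hn]; linarith
      exact_mod_cast this
    · right
      filter_upwards [hf, hg] with n a b hn hh
      have h1 : (f n : ℝ) ≤ g n := by exact_mod_cast hh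
      rw [a hn, b hn] at h1
      exact hb (by linarith)
  · right
    have h1 : ∀ᶠ n : ℕ in atTop, (β' - β) / (α - α') < (n : ℝ) :=
      tendsto_natCast_atTop_atTop.eventually_gt_atTop _
    filter_upwards [hf, hg, h1] with n a b c hn hh
    rw [div_lt_iff₀ (by linarith)] at c
    have h1 : (f n : ℝ) ≤ g n := by exact_mod_cast hh
    rw [a hn, b hn] at h1
    nlinarith

/-- the integer `C n + r` -/
def nb (C : ℕ) (r : ℤ) (n : ℕ) : ℕ := ((C : ℤ) * n + r).toNat

theorem nb_one (n : ℕ) : nb 1 0 n = n := by unfold nb; simp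

theorem er_mod (k n : ℕ) {K : ℕ} (hk : k ≤ K) : er k (n % 2 ^ K) = er k n := by
  obtain ⟨i, rfl⟩ := Nat.exists_eq_add_of_le hk
  have h := (Pool.Agent.Helper894.Collatz.period k (n % 2 ^ (k + i)) (2 ^ i * (n / 2 ^ (k + i)))).2.2
  rw [← mul_assoc, ← pow_add, Nat.mod_add_div] at h
  exact h.symm

theorem nb_cast {C n : ℕ} {r : ℤ} (h : 0 ≤ (C : ℤ) * n + r) : ((nb C r n : ℕ) : ℤ) = C * n + r := by
  unfold nb
  exact Int.toNat_of_nonneg h

theorem nb_mod {C n K c : ℕ} {r : ℤ} (h : 0 ≤ (C : ℤ) * n + r) (hn : n % 2 ^ K = c) :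
    nb C r n % 2 ^ K = (((C : ℤ) * c + r) % 2 ^ K).toNat := by
  have h1 : ((nb C r n % 2 ^ K : ℕ) : ℤ) = ((C : ℤ) * c + r) % 2 ^ K := by
    push_cast
    rw [nb_cast h]
    have h2 : (n : ℤ) % 2 ^ K = c := by exact_mod_cast hn
    rw [← h2, Int.add_emod, Int.mul_emod, ← Int.emod_emod_of_dvd (n : ℤ) (dvd_refl _),
      ← Int.mul_emod, ← Int.add_emod]
    simp [Int.add_emod, Int.mul_emod]
  have h3 : ((nb C r n % 2 ^ K : ℕ) : ℤ).toNat = (((C : ℤ) * c + r) % 2 ^ K).toNat := by rw [h1]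
  rwa [Int.toNat_natCast] at h3

theorem ev_nonneg {C : ℕ} (hC : 1 ≤ C) (r : ℤ) : ∀ᶠ n : ℕ in atTop, 1 ≤ (C : ℤ) * n + r := by
  filter_upwards [eventually_ge_atTop (r.natAbs + 1)] with n hn
  have h1 : (n : ℤ) ≤ C * n := by
    have : (1 : ℤ) ≤ C := by exact_mod_cast hC
    nlinarith [Int.natCast_nonneg n]
  have h2 : ((r.natAbs + 1 : ℕ) : ℤ) ≤ n := by exact_mod_cast hn
  push_cast at h2
  have h3 : -r ≤ |r| := neg_le_abs r
  omega

theorem EA_iter {K k : ℕ} (hk : k ≤ K) {C : ℕ} (hC : 1 ≤ C) (r : ℤ) (c : ℕ) :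
    EA (2 ^ K) c (fun n => Tn^[k] (nb C r n)) := by
  set R := (((C : ℤ) * c + r) % 2 ^ K).toNat with hR
  refine ⟨3 ^ od k R * C / 2 ^ k, (3 ^ od k R * r + er k R) / 2 ^ k, ?_⟩
  filter_upwards [ev_nonneg hC r] with n h1 hn
  have h2 := nb_mod (C := C) (r := r) (by omega) hn
  rw [← hR] at h2
  have h3 : od k (nb C r n) = od k R := by rw [← h2, od_mod k _ hk]
  have h4 : er k (nb C r n) = er k R := by rw [← h2, er_mod k _ hk]
  have h5 := iter_real k (nb C r n)
  rw [h3, h4] at h5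
  have h6 : ((nb C r n : ℕ) : ℝ) = C * n + r := by
    have := nb_cast (C := C) (n := n) (r := r) (by omega)
    exact_mod_cast this
  rw [h6] at h5
  have h7 : (0 : ℝ) < 2 ^ k := by positivity
  rw [mul_comm] at h5
  rw [eq_div_of_mul_eq h7.ne' h5]
  field_simp
  ring

/-- within the first `K` steps the trajectories of `n` and of the numbers `C n + r` have the same
maximum -/
def G (Y : Finset (ℕ × ℤ)) (K n : ℕ) : Prop := ∀ p ∈ Y,
  (∀ k ∈ range K, ∃ j ∈ range K, Tn^[k] (nb p.1 p.2 n) ≤ Tn^[j] n) ∧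
    ∀ j ∈ range K, ∃ k ∈ range K, Tn^[j] n ≤ Tn^[k] (nb p.1 p.2 n)

theorem EC_G {Y : Finset (ℕ × ℤ)} (hY : ∀ p ∈ Y, 1 ≤ p.1) (K c : ℕ) : EC (2 ^ K) c (G Y K) := by
  unfold G
  have h1 : ∀ j ∈ range K, EA (2 ^ K) c (fun n => Tn^[j] n) := by
    intro j hj
    have := EA_iter (K := K) (k := j) (mem_range.1 hj).le (C := 1) le_rfl 0 c
    simpa only [nb_one] using this
  refine EC.ball Y fun p hp => EC.and (EC.ball _ fun k hk => EC.bex _ fun j hj => ?_)
    (EC.ball _ fun j hj => EC.bex _ fun k hk => ?_)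
  · exact EC.le (EA_iter (mem_range.1 hk).le (hY p hp) p.2 c) (h1 j hj)
  · exact EC.le (h1 j hj) (EA_iter (mem_range.1 hk).le (hY p hp) p.2 c)

theorem exists_R {q : ℕ} (hq : 0 < q) {D : ℕ → Prop} (h : ∀ c, EC q c D) :
    ∃ R : Finset ℕ, (∀ r ∈ R, r < q) ∧ ∀ᶠ n : ℕ in atTop, (n % q ∈ R ↔ D n) := by
  classical
  set R := (range q).filter (fun c => ∀ᶠ n : ℕ in atTop, n % q = c → D n) with hR
  refine ⟨R, fun r hr => mem_range.1 (mem_filter.1 hr).1, ?_⟩
  have h1 : ∀ᶠ n : ℕ in atTop, ∀ c ∈ range q, (n % q = c → (c ∈ R ↔ D n)) := by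
    rw [eventually_all_finset]
    intro c hc
    by_cases hcR : c ∈ R
    · have := (mem_filter.1 hcR).2
      filter_upwards [this] with n hn hnc
      exact ⟨fun _ => hn hnc, fun _ => hcR⟩
    · rcases h c with h2 | h2
      · exact absurd (mem_filter.2 ⟨hc, h2⟩) hcR
      · filter_upwards [h2] with n hn hnc
        exact ⟨fun h3 => absurd h3 hcR, fun h3 => absurd h3 (hn hnc)⟩
  filter_upwards [h1] with n hn
  exact hn (n % q) (mem_range.2 (Nat.mod_lt _ hq)) rfl

/-! ### densities by approximation -/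

theorem Dn_congr {P Q : ℕ → Prop} {l : ℝ} (hP : Dn P l) (h : ∀ᶠ n : ℕ in atTop, (P n ↔ Q n)) :
    Dn Q l := by
  obtain ⟨n1, hn1⟩ := eventually_atTop.1 h
  have hz := zd_bdd (n1 : ℝ)
  unfold Dn at *
  have key : ∀ N, |cnt Q N / N - cnt P N / N| ≤ cnt (fun n : ℕ => (n : ℝ) ≤ n1) N / N := by
    intro N
    have h1 : cnt Q N ≤ cnt P N + cnt (fun n : ℕ => (n : ℝ) ≤ n1) N := cnt_or N fun n _ _ hq => by
      rcases le_total n1 n with h2 | h2
      · exact Or.inl ((hn1 n h2).2 hq)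
      · exact Or.inr (by exact_mod_cast h2)
    have h2 : cnt P N ≤ cnt Q N + cnt (fun n : ℕ => (n : ℝ) ≤ n1) N := cnt_or N fun n _ _ hq => by
      rcases le_total n1 n with h2 | h2
      · exact Or.inl ((hn1 n h2).1 hq)
      · exact Or.inr (by exact_mod_cast h2)
    rw [← sub_div, abs_div, abs_of_nonneg (Nat.cast_nonneg N : (0 : ℝ) ≤ N)]
    apply div_le_div_of_nonneg_right _ (Nat.cast_nonneg N)
    rw [abs_le]
    constructor <;> linarith
  have h1 : Tendsto (fun N : ℕ => cnt Q N / N - cnt P N / N) atTop (𝓝 0) :=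
    squeeze_zero_norm key hz
  have h2 := h1.add hP
  simpa using h2

theorem Dn_approx {Q : ℕ → Prop} {A : ℕ → ℕ → Prop} {d e : ℕ → ℝ} (hA : ∀ K, Dn (A K) (d K))
    (he : Tendsto e atTop (𝓝 0))
    (h : ∀ K, 1 ≤ K → ∀ ε : ℝ, 0 < ε → ∀ᶠ N : ℕ in atTop, |cnt (A K) N - cnt Q N| ≤ (e K + ε) * N) :
    ∃ l, Dn Q l := by
  have hc : CauchySeq (fun N : ℕ => cnt Q N / N) := by
    rw [Metric.cauchySeq_iff]
    intro ε hε
    obtain ⟨K, hK1, hK2⟩ := ((he.eventually (gt_mem_nhds (show (0 : ℝ) < ε / 8 by positivity))).and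
      (eventually_ge_atTop 1)).exists
    have h1 := h K hK2 (ε / 8) (by positivity)
    have h2 := Metric.tendsto_atTop.1 (hA K) (ε / 8) (by positivity)
    obtain ⟨N1, hN1⟩ := h2
    obtain ⟨N2, hN2⟩ := eventually_atTop.1 h1
    have key : ∀ N, max (max N1 N2) 1 ≤ N → |cnt Q N / N - d K| < ε / 2 := by
      intro N hN
      have g1 := hN1 N ((le_max_left _ _).trans ((le_max_left _ _).trans hN))
      have g2 := hN2 N ((le_max_right _ _).trans ((le_max_left _ _).trans hN))
      have g3 : 1 ≤ N := (le_max_right _ _).trans hN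
      have hNR : (0 : ℝ) < N := by exact_mod_cast g3
      have g4 : |cnt (A K) N / N - cnt Q N / N| ≤ e K + ε / 8 := by
        rw [← sub_div, abs_div, abs_of_pos hNR, div_le_iff₀ hNR]
        exact g2
      rw [Real.dist_eq] at g1
      have g5 := abs_lt.1 g1
      have g6 := abs_le.1 g4
      rw [abs_lt]
      constructor <;> linarith
    refine ⟨max (max N1 N2) 1, fun m hm n hn => ?_⟩
    have k1 := abs_lt.1 (key m hm)
    have k2 := abs_lt.1 (key n hn)
    rw [Real.dist_eq, abs_lt]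
    constructor <;> linarith
  exact cauchySeq_tendsto_of_complete hc

end Pool.Agent.X16.EE
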