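import Pool.Agent.X16.EE.A
import Pool.Agent.H499R2.NDWord

set_option autoImplicit false

/-! The maximum excursion is attained early: densities of the sets of equal excursions. -/

namespace Pool.Agent.X16.EE

open Finset Filter Topology
open Pool.Agent.H499R2.ND Pool.Agent.H320R2.PD
open Pool.Agent.Helper894.Collatz (od er)

/-- the maximum excursion -/
noncomputable def t (n : ℕ) : ℕ∞ := ⨆ k : ℕ, ((Tn^[k] n : ℕ) : ℕ∞)

theorem le_t (k n : ℕ) : ((Tn^[k] n : ℕ) : ℕ∞) ≤ t n := le_iSup (fun k => ((Tn^[k] n : ℕ) : ℕ∞)) k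

theorem t_lt_top {n : ℕ} : t n < ⊤ ↔ Bdd n := by
  constructor
  · intro h
    refine ⟨(t n).toNat, fun k => ?_⟩
    have h1 := le_t k n
    rw [← ENat.natCast_toNat h.ne] at h1
    exact_mod_cast h1
  · rintro ⟨M, hM⟩
    have : t n ≤ (M : ℕ) := iSup_le fun k => by exact_mod_cast hM k
    exact lt_of_le_of_lt this (ENat.natCast_lt_top M)

/-- the excursion exceeds the starting value at a late time -/
def Late (K n : ℕ) : Prop := Bdd n ∧ ∃ k, K ≤ k ∧ n ≤ Tn^[k] n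

theorem count_late (K : ℕ) {ε : ℝ} (hε : 0 < ε) :
    ∀ᶠ N : ℕ in atTop, cnt (Late K) N ≤ (4 * th ^ K / (1 - th) + ε) * N := by
  have hlate := zd_iff.1 (late Bdd_inv (fun n h => h)) ε hε
  filter_upwards [hlate] with N h1
  have h2 := early K N
  have h3 : cnt (Late K) N ≤ cnt (fun n => Bdd n ∧ ∃ k, n < 2 ^ k ∧ n ≤ Tn^[k] n) N +
      cnt (fun n => ∃ k, K ≤ k ∧ 2 ^ k ≤ n ∧ n ≤ Tn^[k] n) N := by
    refine cnt_or N fun n _ _ h => ?_
    obtain ⟨hb, k, hk1, hk2⟩ := h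
    rcases Nat.lt_or_ge n (2 ^ k) with h | h
    · exact Or.inl ⟨hb, k, h, hk2⟩
    · exact Or.inr ⟨k, hk1, h, hk2⟩
  linarith

/-- the maximum of the first `K` terms -/
theorem t_early {K n : ℕ} (hK : 1 ≤ K) (hb : Bdd n) (h : ¬ Late K n) :
    ∃ j ∈ range K, t n = (Tn^[j] n : ℕ) ∧ ∀ k, Tn^[k] n ≤ Tn^[j] n := by
  obtain ⟨j, hj, hmax⟩ := exists_max_image (range K) (fun k => Tn^[k] n) ⟨0, mem_range.2 hK⟩
  have h1 : ∀ k, Tn^[k] n ≤ Tn^[j] n := by
    intro k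
    rcases Nat.lt_or_ge k K with hk | hk
    · exact hmax k (mem_range.2 hk)
    · by_contra hlt
      push Not at hlt
      apply h
      refine ⟨hb, k, hk, ?_⟩
      have h2 := hmax 0 (mem_range.2 hK)
      simp only [Function.iterate_zero, id] at h2
      omega
  refine ⟨j, hj, le_antisymm (iSup_le fun k => by exact_mod_cast h1 k) (le_t j n), h1⟩

theorem t_eq_iff {K n y : ℕ} (hK : 1 ≤ K) (hn : Bdd n) (hy : Bdd y) (h1 : ¬ Late K n) (h2 : ¬ Late K y) :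
    t y = t n ↔ (∀ k ∈ range K, ∃ j ∈ range K, Tn^[k] y ≤ Tn^[j] n) ∧
      ∀ j ∈ range K, ∃ k ∈ range K, Tn^[j] n ≤ Tn^[k] y := by
  obtain ⟨j, hj, hj1, hj2⟩ := t_early hK hn h1
  obtain ⟨i, hi, hi1, hi2⟩ := t_early hK hy h2
  rw [hi1, hj1]
  constructor
  · intro h
    have h' : Tn^[i] y = Tn^[j] n := by exact_mod_cast h
    exact ⟨fun k _ => ⟨j, hj, (hi2 k).trans h'.le⟩, fun k _ => ⟨i, hi, (hj2 k).trans h'.ge⟩⟩
  · rintro ⟨h3, h4⟩
    obtain ⟨a, -, ha⟩ := h3 i hi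
    obtain ⟨b, -, hb⟩ := h4 j hj
    have := ha.trans (hj2 a)
    have := hb.trans (hi2 b)
    have : Tn^[i] y = Tn^[j] n := by omega
    exact_mod_cast this

theorem cnt_bex {ι : Type*} (s : Finset ι) (D : ι → ℕ → Prop) (N : ℕ) :
    cnt (fun n => ∃ i ∈ s, D i n) N ≤ ∑ i ∈ s, cnt (D i) N := by
  classical
  induction s using Finset.induction_on with
  | empty =>
    rw [sum_empty]
    unfold Pool.Agent.H499R2.ND.cnt
    have : {n : ℕ | 1 ≤ n ∧ n ≤ N ∧ ∃ i ∈ (∅ : Finset ι), D i n} = ∅ := by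
      ext n; simp
    rw [this]; simp
  | insert a s ha ih =>
    rw [sum_insert ha]
    refine (cnt_or N (Q := D a) (R := fun n => ∃ i ∈ s, D i n) fun n _ _ h => ?_).trans (by linarith)
    obtain ⟨i, hi, h⟩ := h
    rcases mem_insert.1 hi with rfl | hi
    · exact Or.inl h
    · exact Or.inr ⟨i, hi, h⟩

theorem count_nb (P : ℕ → Prop) {C : ℕ} (hC : 1 ≤ C) (r : ℤ) (N : ℕ) :
    cnt (fun n => 1 ≤ nb C r n ∧ P (nb C r n)) N ≤ cnt P ((C + r.natAbs) * N) := by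
  unfold Pool.Agent.H499R2.ND.cnt
  have h : {n : ℕ | 1 ≤ n ∧ n ≤ N ∧ 1 ≤ nb C r n ∧ P (nb C r n)}.ncard ≤
      {n : ℕ | 1 ≤ n ∧ n ≤ (C + r.natAbs) * N ∧ P n}.ncard := by
    refine Set.ncard_le_ncard_of_injOn (nb C r) ?_ ?_
      ((Set.finite_Icc 1 ((C + r.natAbs) * N)).subset fun n hn => ⟨hn.1, hn.2.1⟩)
    · rintro n ⟨h1, h2, h3, h4⟩
      refine ⟨h3, ?_, h4⟩
      have h5 : (0 : ℤ) ≤ (C : ℤ) * n + r := by
        unfold nb at h3; omega
      have h6 := nb_cast h5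
      have h7 : (nb C r n : ℤ) ≤ ((C + r.natAbs) * N : ℕ) := by
        rw [h6]
        push_cast
        have h8 : (C : ℤ) * n ≤ C * N := by
          apply mul_le_mul_of_nonneg_left _ (Int.natCast_nonneg C)
          exact_mod_cast h2
        have h9 : r ≤ |r| * N := by
          have : (1 : ℤ) ≤ N := by omega
          have h10 : r ≤ |r| := le_abs_self r
          have h11 : 0 ≤ |r| := abs_nonneg r
          nlinarith
        rw [add_mul]
        linarith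
      exact_mod_cast h7
    · rintro n ⟨h1, h2, h3, h4⟩ m ⟨h1', h2', h3', h4'⟩ h
      have h5 : (0 : ℤ) ≤ (C : ℤ) * n + r := by
        unfold nb at h3; omega
      have h5' : (0 : ℤ) ≤ (C : ℤ) * m + r := by
        unfold nb at h3'; omega
      have h6 := nb_cast h5
      rw [h, nb_cast h5'] at h6
      have h7 : (C : ℤ) * m = C * n := by linarith
      have hC' : (C : ℤ) ≠ 0 := by exact_mod_cast (by omega : C ≠ 0)
      have h8 := mul_left_cancel₀ hC' h7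
      exact_mod_cast h8.symm
  exact_mod_cast h

/-- equal excursions -/
def E (Y : Finset (ℕ × ℤ)) (n : ℕ) : Prop := t n < ⊤ ∧ ∀ p ∈ Y, t (nb p.1 p.2 n) = t n

theorem close {Y : Finset (ℕ × ℤ)} {K n : ℕ} (hK : 1 ≤ K) (h1 : ¬ Late K n)
    (h2 : ∀ p ∈ Y, ¬ Late K (nb p.1 p.2 n)) (h3 : ∀ p ∈ Y, ¬ (Bdd n ∧ ¬ Bdd (nb p.1 p.2 n))) :
    E Y n ↔ (G Y K n ∧ Bdd n) := by
  constructor
  · rintro ⟨h4, h5⟩
    have hb := t_lt_top.1 h4
    refine ⟨fun p hp => ?_, hb⟩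
    have h6 := h5 p hp
    have hb' : Bdd (nb p.1 p.2 n) := t_lt_top.1 (by rw [h6]; exact h4)
    exact (t_eq_iff hK hb hb' h1 (h2 p hp)).1 h6
  · rintro ⟨h4, hb⟩
    refine ⟨t_lt_top.2 hb, fun p hp => ?_⟩
    have hb' : Bdd (nb p.1 p.2 n) := by
      by_contra hcon
      exact h3 p hp ⟨hb, hcon⟩
    exact (t_eq_iff hK hb hb' h1 (h2 p hp)).2 (h4 p hp)

theorem exists_density {Y : Finset (ℕ × ℤ)} (hY : ∀ p ∈ Y, 1 ≤ p.1)
    (hNM : ∀ p ∈ Y, Dn (fun n => Bdd n ∧ ¬ Bdd (nb p.1 p.2 n)) 0) : ∃ l, Dn (E Y) l := by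
  classical
  obtain ⟨β, h0, h1, h2, hβ⟩ := Bdd_density
  have hth := th_pos
  have hth1 := th_lt
  have hR : ∀ K : ℕ, ∃ l, Dn (fun n => G Y K n ∧ Bdd n) l := by
    intro K
    obtain ⟨R, hR1, hR2⟩ := exists_R (q := 2 ^ K) (by positivity) (D := G Y K) (fun c => EC_G hY K c)
    refine ⟨R.card * (β / (2 ^ K : ℕ)), ?_⟩
    refine Dn_congr (dn_res Bdd_inv hβ (q := 2 ^ K) (by positivity) hR1) ?_
    filter_upwards [hR2] with n hn
    rw [hn]
  choose d hd using hR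
  set W : ℝ := 1 + ∑ p ∈ Y, ((p.1 + p.2.natAbs : ℕ) : ℝ) with hW
  have hW0 : 0 < W := by positivity
  refine Dn_approx (e := fun K => 4 * th ^ K / (1 - th) * W) hd ?_ ?_
  · have := (((tendsto_pow_atTop_nhds_zero_of_lt_one hth.le hth1).const_mul 4).div_const (1 - th)).mul_const W
    simpa using this
  · intro K hK ε hε
    set δ := ε / (2 * W + (Y.card + 1)) with hδ
    have hδ0 : 0 < δ := by positivity
    have e1 := count_late K hδ0
    have e2 : ∀ᶠ N : ℕ in atTop, ∀ p ∈ Y, cnt (fun n => 1 ≤ nb p.1 p.2 n ∧ Late K (nb p.1 p.2 n)) N ≤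
        (4 * th ^ K / (1 - th) + δ) * ((p.1 + p.2.natAbs : ℕ) * N) := by
      rw [eventually_all_finset]
      intro p hp
      have h3 : Tendsto (fun N : ℕ => (p.1 + p.2.natAbs) * N) atTop atTop :=
        tendsto_id.const_mul_atTop' (by have := hY p hp; omega)
      filter_upwards [h3.eventually e1] with N hN
      refine (count_nb (Late K) (hY p hp) p.2 N).trans (hN.trans (le_of_eq ?_))
      push_cast
      ring
    have e3 : ∀ᶠ N : ℕ in atTop, ∀ p ∈ Y, cnt (fun n => Bdd n ∧ ¬ Bdd (nb p.1 p.2 n)) N ≤ δ * N := by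
      rw [eventually_all_finset]
      intro p hp
      exact zd_iff.1 (hNM p hp) δ hδ0
    have e4 : ∀ᶠ n : ℕ in atTop, ∀ p ∈ Y, 1 ≤ nb p.1 p.2 n := by
      rw [eventually_all_finset]
      intro p hp
      filter_upwards [ev_nonneg (hY p hp) p.2] with n hn
      unfold nb
      omega
    obtain ⟨n1, hn1⟩ := eventually_atTop.1 e4
    have e5 := zd_iff.1 (zd_bdd (n1 : ℝ)) δ hδ0
    filter_upwards [e1, e2, e3, e5] with N g1 g2 g3 g5
    set Bad : ℕ → Prop := fun n => Late K n ∨ ((∃ p ∈ Y, 1 ≤ nb p.1 p.2 n ∧ Late K (nb p.1 p.2 n)) ∨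
      ((∃ p ∈ Y, Bdd n ∧ ¬ Bdd (nb p.1 p.2 n)) ∨ (n : ℝ) ≤ n1)) with hBad
    have hgood : ∀ n, ¬ Bad n → (E Y n ↔ (G Y K n ∧ Bdd n)) := by
      intro n hn
      rw [hBad] at hn
      push Not at hn
      obtain ⟨k1, k2, k3, k4⟩ := hn
      have k5 : n1 ≤ n := by exact_mod_cast k4.le
      exact close hK k1 (fun p hp => k2 p hp (hn1 n k5 p hp)) (fun p hp h => h.2 (k3 p hp h.1))
    have b1 : cnt Bad N ≤ (4 * th ^ K / (1 - th) * W + ε) * N := by
      have c1 : cnt Bad N ≤ cnt (Late K) N + (cnt (fun n => ∃ p ∈ Y, 1 ≤ nb p.1 p.2 n ∧ Late K (nb p.1 p.2 n)) N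
          + (cnt (fun n => ∃ p ∈ Y, Bdd n ∧ ¬ Bdd (nb p.1 p.2 n)) N + cnt (fun n : ℕ => (n : ℝ) ≤ n1) N)) :=
        (cnt_or N fun n _ _ h => h).trans (add_le_add le_rfl ((cnt_or N fun n _ _ h => h).trans
          (add_le_add le_rfl (cnt_or N fun n _ _ h => h))))
      have c2 := (cnt_bex Y (fun p n => 1 ≤ nb p.1 p.2 n ∧ Late K (nb p.1 p.2 n)) N).trans
        (sum_le_sum fun p hp => g2 p hp)
      have c3 := (cnt_bex Y (fun p n => Bdd n ∧ ¬ Bdd (nb p.1 p.2 n)) N).trans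
        (sum_le_sum fun p hp => g3 p hp)
      rw [sum_const, nsmul_eq_mul] at c3
      rw [← mul_sum, ← sum_mul] at c2
      have c4 : (4 * th ^ K / (1 - th) + δ) * N + (4 * th ^ K / (1 - th) + δ) *
          ((∑ p ∈ Y, ((p.1 + p.2.natAbs : ℕ) : ℝ)) * N) = (4 * th ^ K / (1 - th) + δ) * (W * N) := by
        rw [hW]; ring
      have c5 : δ * (W + (Y.card + 1)) ≤ ε := by
        rw [hδ, div_mul_eq_mul_div, div_le_iff₀ (by positivity)]
        apply mul_le_mul_of_nonneg_left _ hε.le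
        linarith
      have c6 : (0 : ℝ) ≤ N := Nat.cast_nonneg N
      have c7 := mul_le_mul_of_nonneg_right c5 c6
      have c8 : (4 * th ^ K / (1 - th) + δ) * (W * N) + (Y.card * (δ * N) + δ * N) =
        4 * th ^ K / (1 - th) * W * N + δ * (W + (Y.card + 1)) * N := by ring
      calc cnt Bad N ≤ (4 * th ^ K / (1 - th) + δ) * N + ((4 * th ^ K / (1 - th) + δ) *
          ((∑ p ∈ Y, ((p.1 + p.2.natAbs : ℕ) : ℝ)) * N) + (Y.card * (δ * N) + δ * N)) := by linarith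
        _ = 4 * th ^ K / (1 - th) * W * N + δ * (W + (Y.card + 1)) * N := by rw [← c8, ← c4]; ring
        _ ≤ (4 * th ^ K / (1 - th) * W + ε) * N := by
            rw [add_mul]; linarith
    have b2 : cnt (fun n => G Y K n ∧ Bdd n) N ≤ cnt (E Y) N + cnt Bad N := cnt_or N fun n _ _ h => by
      by_cases hB : Bad n
      · exact Or.inr hB
      · exact Or.inl ((hgood n hB).2 h)
    have b3 : cnt (E Y) N ≤ cnt (fun n => G Y K n ∧ Bdd n) N + cnt Bad N := cnt_or N fun n _ _ h => by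
      by_cases hB : Bad n
      · exact Or.inr hB
      · exact Or.inl ((hgood n hB).1 h)
    rw [abs_le]
    constructor <;> linarith

end Pool.Agent.X16.EE
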