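import Pool.Agent.X16.EE.B
import Pool.Agent.Results.MP_ff4775_nt.AffineImages

set_option autoImplicit false

/-! Merging with the affine images, and the positivity of the density. -/

namespace Pool.Agent.X16.EE

open Finset Filter Topology
open Pool.Agent.H499R2.ND Pool.Agent.H320R2.PD
open Pool.Agent.Helper894.Collatz (od er)

open Pool.Agent.Results.MP_ff4775_nt in
theorem T_cast (k n : ℕ) : AffineImages.T^[k] (n : ℤ) = ((Tn^[k] n : ℕ) : ℤ) := by
  induction k with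
  | zero => rfl
  | succ k ih =>
    rw [Function.iterate_succ_apply', Function.iterate_succ_apply', ih]
    generalize Tn^[k] n = m
    simp only [AffineImages.T, Tn]
    split_ifs <;> omega

/-- the trajectories of `n` and of the `2^a 3^b n + r` merge at the time `t` -/
def Mer (m t n : ℕ) : Prop := ∀ (a b : ℕ) (r : ℤ), a + b ≤ m → |r| ≤ m → 0 ≤ ((2 ^ a * 3 ^ b : ℕ) : ℤ) * n + r →
  Tn^[t] n = Tn^[t + a] (nb (2 ^ a * 3 ^ b) r n)

theorem tendsto_loglog : Tendsto (fun N : ℕ => √ (Real.log (Real.log N) / Real.log N)) atTop (𝓝 0) := by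
  have h1 : Tendsto (fun x : ℝ => Real.log x / x) atTop (𝓝 0) := by
    have := Real.tendsto_pow_log_div_mul_add_atTop 1 0 1 one_ne_zero
    simpa using this
  have h2 : Tendsto (fun N : ℕ => Real.log (N : ℝ)) atTop atTop :=
    Real.tendsto_log_atTop.comp tendsto_natCast_atTop_atTop
  have h3 := h1.comp h2
  have h4 := (Real.continuous_sqrt.tendsto 0).comp h3
  rw [Real.sqrt_zero] at h4
  exact h4

theorem mer_count (m : ℕ) {ε : ℝ} (hε : 0 < ε) :
    ∀ᶠ N : ℕ in atTop, cnt (fun n => ¬ Mer m (Nat.log 2 N / 4) n) N ≤ ε * N := by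
  obtain ⟨⟨K, hK, h⟩, -, -⟩ := Pool.Agent.Results.MP_ff4775_nt.AffineImages.result
  have h1 := (tendsto_loglog.const_mul (K * ((m : ℝ) + 1) ^ 4)).eventually
    (gt_mem_nhds (show K * ((m : ℝ) + 1) ^ 4 * 0 < ε by simpa using hε))
  filter_upwards [h1, eventually_ge_atTop 16] with N h2 h3
  have h4 := h N h3 m 1 (Or.inl rfl)
  have h5 : cnt (fun n => ¬ Mer m (Nat.log 2 N / 4) n) N ≤
      ({n : ℕ | 1 ≤ n ∧ n ≤ N ∧ ¬ ∀ (a b : ℕ) (r : ℤ), a + b ≤ m → |r| ≤ m →
        Pool.Agent.Results.MP_ff4775_nt.AffineImages.T^[Nat.log 2 N / 4] (1 * (n : ℤ)) =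
          Pool.Agent.Results.MP_ff4775_nt.AffineImages.T^[Nat.log 2 N / 4 + a]
            (2 ^ a * 3 ^ b * (1 * (n : ℤ)) + r)}.ncard : ℝ) := by
    unfold Pool.Agent.H499R2.ND.cnt
    have : {n : ℕ | 1 ≤ n ∧ n ≤ N ∧ ¬ Mer m (Nat.log 2 N / 4) n} ⊆
        {n : ℕ | 1 ≤ n ∧ n ≤ N ∧ ¬ ∀ (a b : ℕ) (r : ℤ), a + b ≤ m → |r| ≤ m →
        Pool.Agent.Results.MP_ff4775_nt.AffineImages.T^[Nat.log 2 N / 4] (1 * (n : ℤ)) =
          Pool.Agent.Results.MP_ff4775_nt.AffineImages.T^[Nat.log 2 N / 4 + a]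
            (2 ^ a * 3 ^ b * (1 * (n : ℤ)) + r)} := by
      rintro n ⟨k1, k2, k3⟩
      refine ⟨k1, k2, fun k4 => k3 fun a b r ha hr h0 => ?_⟩
      have k5 := k4 a b r ha hr
      have k6 := nb_cast h0
      push_cast at k6
      rw [one_mul, ← k6, T_cast, T_cast] at k5
      exact_mod_cast k5
    exact_mod_cast Set.ncard_le_ncard this ((Set.finite_Icc 1 N).subset fun n hn => ⟨hn.1, hn.2.1⟩)
  refine h5.trans (h4.trans ?_)
  apply mul_le_mul_of_nonneg_right h2.le (Nat.cast_nonneg N)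

theorem bdd_same {a b : ℕ} {r : ℤ} : Dn (fun n => Bdd n ∧ ¬ Bdd (nb (2 ^ a * 3 ^ b) r n)) 0 := by
  rw [zd_iff]
  intro ε hε
  obtain ⟨n1, hn1⟩ := eventually_atTop.1 (ev_nonneg (C := 2 ^ a * 3 ^ b) (Nat.one_le_iff_ne_zero.2 (by positivity)) r)
  have h1 := zd_iff.1 (zd_bdd (n1 : ℝ)) (ε / 2) (by positivity)
  filter_upwards [mer_count (a + b + r.natAbs) (show 0 < ε / 2 by positivity), h1] with N h2 h3
  have h4 : cnt (fun n => Bdd n ∧ ¬ Bdd (nb (2 ^ a * 3 ^ b) r n)) N ≤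
      cnt (fun n => ¬ Mer (a + b + r.natAbs) (Nat.log 2 N / 4) n) N + cnt (fun n : ℕ => (n : ℝ) ≤ n1) N := by
    refine cnt_or N fun n _ _ h => ?_
    by_contra hcon
    push Not at hcon
    obtain ⟨k1, k2⟩ := hcon
    have k3 : n1 ≤ n := by exact_mod_cast k2.le
    have k4 := k1 a b r (by omega) (by push_cast; have := abs_nonneg r; linarith [Int.natCast_nonneg a, Int.natCast_nonneg b]) (by have := hn1 n k3; omega)
    apply h.2
    rw [Bdd_iter _ (Nat.log 2 N / 4 + a), ← k4, ← Bdd_iter]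
    exact h.1
  linarith

/-- a merging number of size `2^(4K)` at the time `K` -/
theorem exists_mer (m : ℕ) : ∀ᶠ K : ℕ in atTop, ∃ n0 : ℕ, 1 ≤ n0 ∧ 2 ^ (4 * K) < 4 * n0 ∧ Mer m K n0 := by
  have h1 := mer_count m (show (0 : ℝ) < 1 / 4 by norm_num)
  have h2 : Tendsto (fun K : ℕ => 2 ^ (4 * K)) atTop atTop :=
    (tendsto_pow_atTop_atTop_of_one_lt (by norm_num : 1 < 2)).comp
      (tendsto_id.const_mul_atTop' (by norm_num : 0 < 4))
  filter_upwards [h2.eventually h1, eventually_ge_atTop 1] with K hK hK1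
  by_contra hcon
  push Not at hcon
  have hlog : Nat.log 2 (2 ^ (4 * K)) / 4 = K := by
    rw [Nat.log_pow (by norm_num)]; omega
  rw [hlog] at hK
  set N := 2 ^ (4 * K) with hN
  have hN4 : 16 ≤ N := by
    calc 16 = 2 ^ 4 := by norm_num
      _ ≤ 2 ^ (4 * K) := Nat.pow_le_pow_right (by norm_num) (by omega)
  have hsub : Set.Icc (N / 4 + 1) N ⊆ {n : ℕ | 1 ≤ n ∧ n ≤ N ∧ ¬ Mer m K n} := by
    rintro n ⟨k1, k2⟩
    exact ⟨by omega, k2, hcon n (by omega) (by omega)⟩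
  have h3 := Set.ncard_le_ncard hsub ((Set.finite_Icc 1 N).subset fun n hn => ⟨hn.1, hn.2.1⟩)
  have h4 : (Set.Icc (N / 4 + 1) N).ncard = N - N / 4 := by
    rw [← Nat.card_coe_set_eq, Nat.card_eq_fintype_card]; simp
  rw [h4] at h3
  have h5 : ((N - N / 4 : ℕ) : ℝ) ≤ 1 / 4 * (N : ℕ) := by
    refine le_trans ?_ hK
    unfold Pool.Agent.H499R2.ND.cnt
    exact_mod_cast h3
  have h6 : 4 * (N - N / 4) ≤ N := by
    have : (4 : ℝ) * ((N - N / 4 : ℕ) : ℝ) ≤ (N : ℕ) := by linarith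
    exact_mod_cast this
  omega

/-- merging at one number, of a large size, gives merging on a residue class -/
theorem mer_class {m K n0 : ℕ} (h0 : 2 ^ (4 * K) < 4 * n0) (hM : Mer m K n0)
    (hK : 4 * (3 ^ (K + m) * (m + 2)) ≤ 2 ^ (4 * K)) (l : ℕ) : Mer m K (n0 + 2 ^ K * l) := by
  intro a b r hab hr hpos
  have hn0 : 1 ≤ n0 := by
    have : 1 ≤ 2 ^ (4 * K) := Nat.one_le_two_pow
    omega
  set C : ℕ := 2 ^ a * 3 ^ b with hC
  have hC1 : 1 ≤ C := Nat.one_le_iff_ne_zero.2 (by positivity)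
  have ham : a ≤ m := by omega
  have hbig : (m : ℤ) < n0 := by
    have h1 : m + 2 ≤ 3 ^ (K + m) * (m + 2) := Nat.le_mul_of_pos_left _ (by positivity)
    have : m < n0 := by omega
    exact_mod_cast this
  have hpos0 : 0 ≤ (C : ℤ) * n0 + r := by
    have h1 : (1 : ℤ) ≤ C := by exact_mod_cast hC1
    have h2 := (abs_le.1 hr).1
    nlinarith
  have h1 := hM a b r hab hr hpos0
  set y0 := nb C r n0 with hy0
  have hy0c : (y0 : ℤ) = C * n0 + r := nb_cast hpos0
  have hy : nb C r (n0 + 2 ^ K * l) = y0 + 2 ^ (K + a) * (3 ^ b * l) := by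
    have h2 := nb_cast hpos
    have : ((nb C r (n0 + 2 ^ K * l) : ℕ) : ℤ) = ((y0 + 2 ^ (K + a) * (3 ^ b * l) : ℕ) : ℤ) := by
      rw [h2]
      push_cast
      rw [hy0c, hC]
      push_cast
      rw [pow_add]
      ring
    exact_mod_cast this
  rw [hy]
  have p1 := (Pool.Agent.Helper894.Collatz.period K n0 l).1
  have p2 := (Pool.Agent.Helper894.Collatz.period (K + a) y0 (3 ^ b * l)).1
  rw [Tn_eq] at p1 p2
  rw [p1, p2, h1]
  -- the numbers of odd steps
  have i1 := Pool.Agent.Helper894.Collatz.iter_eq K n0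
  have i2 := Pool.Agent.Helper894.Collatz.iter_eq (K + a) y0
  rw [Tn_eq] at i1 i2
  rw [h1] at i1
  set s := od K n0 with hs
  set s' := od (K + a) y0 with hs'
  have e1 := er_le K n0
  have e2 := er_le (K + a) y0
  have hs'K : s' ≤ K + a := od_le _ _
  have key : s = s' + b := by
    have j1 : (2 : ℤ) ^ a * (3 ^ s * n0 + er K n0) = 3 ^ s' * (2 ^ a * 3 ^ b * n0 + r) + er (K + a) y0 := by
      have i1' : (2 : ℤ) ^ K * ((Tn^[K + a] y0 : ℕ) : ℤ) = 3 ^ s * n0 + er K n0 := by exact_mod_cast i1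
      have i2' : (2 : ℤ) ^ (K + a) * ((Tn^[K + a] y0 : ℕ) : ℤ) = 3 ^ s' * y0 + er (K + a) y0 := by
        exact_mod_cast i2
      rw [hy0c, hC] at i2'
      push_cast at i2'
      rw [← i2', ← i1', pow_add]
      ring
    have j2 : ((2 : ℤ) ^ a * n0) * (3 ^ s - 3 ^ (s' + b)) = 3 ^ s' * r + er (K + a) y0 - 2 ^ a * er K n0 := by
      rw [pow_add]
      linear_combination j1
    have j3 : (3 : ℤ) ^ s' ≤ 3 ^ (K + m) := by
      apply pow_le_pow_right₀ (by norm_num); omega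
    have j4 : (er (K + a) y0 : ℤ) ≤ 3 ^ (K + m) := by
      have : er (K + a) y0 ≤ 3 ^ (K + m) := by
        have h5 : 3 ^ (K + a) ≤ 3 ^ (K + m) := Nat.pow_le_pow_right (by norm_num) (by omega)
        exact (Nat.le_add_right _ _).trans (e2.trans h5)
      exact_mod_cast this
    have j5 : (2 : ℤ) ^ a * er K n0 ≤ 3 ^ (K + m) := by
      have h5 : 2 ^ a * er K n0 ≤ 3 ^ m * 3 ^ K := by
        apply Nat.mul_le_mul
        · exact (Nat.pow_le_pow_left (by norm_num) a).trans (Nat.pow_le_pow_right (by norm_num) ham)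
        · exact (Nat.le_add_right _ _).trans e1
      rw [← pow_add, add_comm m K] at h5
      exact_mod_cast h5
    have j6 : |(3 : ℤ) ^ s' * r| ≤ 3 ^ (K + m) * m := by
      rw [abs_mul, abs_of_pos (by positivity : (0 : ℤ) < 3 ^ s')]
      exact mul_le_mul j3 hr (abs_nonneg r) (by positivity)
    have j7 : |(2 : ℤ) ^ a * n0 * (3 ^ s - 3 ^ (s' + b))| ≤ 3 ^ (K + m) * (m + 2) := by
      rw [j2]
      have h5 := abs_le.1 j6
      have h6 : (0 : ℤ) ≤ er (K + a) y0 := Int.natCast_nonneg _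
      have h7 : (0 : ℤ) ≤ 2 ^ a * er K n0 := by positivity
      have h8 : (0 : ℤ) < 3 ^ (K + m) := by positivity
      have h9 : (3 : ℤ) ^ (K + m) * (m + 2) = 3 ^ (K + m) * m + 2 * 3 ^ (K + m) := by ring
      rw [abs_le, h9]
      constructor <;> linarith
    have j8 : (3 : ℤ) ^ (K + m) * (m + 2) < n0 := by
      have : 3 ^ (K + m) * (m + 2) < n0 := by omega
      exact_mod_cast this
    have j9 : (n0 : ℤ) ≤ 2 ^ a * n0 := by
      have : (1 : ℤ) ≤ 2 ^ a := one_le_pow₀ (by norm_num)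
      nlinarith
    have j10 : (3 : ℤ) ^ s = 3 ^ (s' + b) := by
      by_contra hne
      have h5 : 1 ≤ |(3 : ℤ) ^ s - 3 ^ (s' + b)| := Int.one_le_abs (sub_ne_zero.2 hne)
      rw [abs_mul, abs_of_nonneg (by positivity : (0 : ℤ) ≤ 2 ^ a * n0)] at j7
      have h6 : (2 : ℤ) ^ a * n0 * 1 ≤ 2 ^ a * n0 * |(3 : ℤ) ^ s - 3 ^ (s' + b)| :=
        mul_le_mul_of_nonneg_left h5 (by positivity)
      linarith
    have j11 : 3 ^ s = 3 ^ (s' + b) := by exact_mod_cast j10
    exact Nat.pow_right_injective (by norm_num : 2 ≤ 3) j11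
  rw [key, pow_add]
  ring

theorem up (L : ℕ) : ∀ w : ℕ, 1 ≤ w → Tn^[L] (2 ^ L * w - 1) = 3 ^ L * w - 1 := by
  induction L with
  | zero => intro w _; simp
  | succ L ih =>
    intro w hw
    rw [Function.iterate_succ_apply]
    have h1 : 1 ≤ 2 ^ L * w := Nat.one_le_iff_ne_zero.2 (by positivity)
    have h2 : 2 ^ (L + 1) * w = 2 * (2 ^ L * w) := by ring
    have h3 : 2 ^ L * (3 * w) = 3 * (2 ^ L * w) := by ring
    have h4 : Tn (2 ^ (L + 1) * w - 1) = 2 ^ L * (3 * w) - 1 := by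
      rw [h2, h3]
      generalize 2 ^ L * w = q at h1
      simp only [Tn]
      rw [if_neg (by omega)]
      omega
    rw [h4, ih (3 * w) (by omega)]
    congr 1
    ring

theorem Tn_iter_le {n : ℕ} (hn : 1 ≤ n) (k : ℕ) : Tn^[k] n ≤ 2 ^ k * n := by
  induction k with
  | zero => simp
  | succ k ih =>
    rw [Function.iterate_succ_apply']
    refine (Tn_le (Tn_iter_pos hn k)).trans ((Nat.mul_le_mul_left 2 ih).trans (le_of_eq ?_))
    rw [pow_succ]
    ring

theorem Tn_iter_ge (n k : ℕ) : n ≤ 2 ^ k * Tn^[k] n := by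
  induction k with
  | zero => simp
  | succ k ih =>
    rw [Function.iterate_succ_apply']
    refine ih.trans ((Nat.mul_le_mul_left _ (Tn_ge (Tn^[k] n))).trans (le_of_eq ?_))
    rw [pow_succ]
    ring

/-- the excursion of a later term -/
theorem t_shift {x j M : ℕ} (h : ∀ k ≤ j, Tn^[k] x ≤ M) (hM : (M : ℕ∞) ≤ t (Tn^[j] x)) :
    t x = t (Tn^[j] x) := by
  apply le_antisymm
  · apply iSup_le
    intro k
    rcases Nat.lt_or_ge j k with hk | hk
    · have : Tn^[k] x = Tn^[k - j] (Tn^[j] x) := by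
        rw [← Function.iterate_add_apply, Nat.sub_add_cancel hk.le]
      rw [this]
      exact le_t _ _
    · exact le_trans (by exact_mod_cast h k hk) hM
  · apply iSup_le
    intro k
    rw [← Function.iterate_add_apply]
    exact le_t _ _

end Pool.Agent.X16.EE
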