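import Pool.Agent.X16.EE.C

set_option autoImplicit false

/-! The sets of equal excursions: positive density, and an upper bound for runs. -/

namespace Pool.Agent.X16.EE

open Finset Filter Topology
open Pool.Agent.H499R2.ND Pool.Agent.H320R2.PD
open Pool.Agent.Helper894.Collatz (od er)

theorem ev_K (m : ℕ) : ∀ᶠ K : ℕ in atTop, 4 * (3 ^ (K + m) * (m + 2)) ≤ 2 ^ (4 * K) := by
  filter_upwards [eventually_ge_atTop (4 * 3 ^ m * (m + 2))] with K hK
  have h1 : K < 5 ^ K := Nat.lt_pow_self (by norm_num)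
  calc 4 * (3 ^ (K + m) * (m + 2)) = 3 ^ K * (4 * 3 ^ m * (m + 2)) := by rw [pow_add]; ring
    _ ≤ 3 ^ K * 5 ^ K := Nat.mul_le_mul_left _ (by omega)
    _ = 15 ^ K := by rw [← mul_pow]; norm_num
    _ ≤ 16 ^ K := Nat.pow_le_pow_left (by norm_num) K
    _ = 2 ^ (4 * K) := by rw [pow_mul]; norm_num

theorem exists_l (L s S : ℕ) : ∃ l, 2 ^ L ∣ S + 3 ^ s * l + 1 := by
  have hc : Nat.Coprime (3 ^ s) (2 ^ L) := Nat.Coprime.pow _ _ (by norm_num)
  haveI : NeZero (2 ^ L) := ⟨by positivity⟩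
  set u := ZMod.unitOfCoprime (3 ^ s) hc with hu
  refine ⟨((-((S : ZMod (2 ^ L)) + 1)) * ((u⁻¹ : (ZMod (2 ^ L))ˣ) : ZMod (2 ^ L))).val, ?_⟩
  rw [← ZMod.natCast_eq_zero_iff]
  have h1 : ((3 ^ s : ℕ) : ZMod (2 ^ L)) = (u : ZMod (2 ^ L)) := (ZMod.coe_unitOfCoprime _ hc).symm
  rw [Nat.cast_add, Nat.cast_add, Nat.cast_mul, h1, ZMod.natCast_zmod_val, Nat.cast_one]
  have h2 : (u : ZMod (2 ^ L)) * ((-((S : ZMod (2 ^ L)) + 1)) * ((u⁻¹ : (ZMod (2 ^ L))ˣ) : ZMod (2 ^ L))) =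
      -((S : ZMod (2 ^ L)) + 1) := by
    rw [mul_comm, mul_assoc, Units.inv_mul, mul_one]
  rw [h2]
  ring

theorem exists_class (m : ℕ) : ∃ q N1 : ℕ, 0 < q ∧ ∀ n, N1 ≤ n → n % q = N1 % q → Bdd n → t n < ⊤ ∧
    ∀ (a b : ℕ) (r : ℤ), a + b ≤ m → |r| ≤ m → t (nb (2 ^ a * 3 ^ b) r n) = t n := by
  obtain ⟨K, ⟨n0, hn0, hsize, hM⟩, hK⟩ := ((exists_mer m).and (ev_K m)).exists
  set S := Tn^[K] n0 with hS
  set s := od K n0 with hs
  set A : ℕ := 2 ^ (K + m) * (2 ^ m * 3 ^ m + m) with hA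
  obtain ⟨L, hL⟩ := pow_unbounded_of_one_lt ((A * 2 ^ K : ℕ) : ℝ) (show (1 : ℝ) < 3 / 2 by norm_num)
  have hAL : A * 2 ^ (K + L) ≤ 3 ^ L := by
    have h1 : ((A * 2 ^ K : ℕ) : ℝ) * 2 ^ L < 3 ^ L := by
      have h2 : (3 / 2 : ℝ) ^ L * 2 ^ L = 3 ^ L := by rw [← mul_pow]; norm_num
      rw [← h2]
      exact mul_lt_mul_of_pos_right hL (by positivity)
    have h2 : A * 2 ^ K * 2 ^ L < 3 ^ L := by exact_mod_cast h1
    rw [pow_add, ← mul_assoc]
    exact h2.le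
  obtain ⟨l0, hl0⟩ := exists_l L s S
  refine ⟨2 ^ (K + L), n0 + 2 ^ K * l0, by positivity, fun n hn hmod hb => ?_⟩
  obtain ⟨j, hj⟩ : ∃ j, n = n0 + 2 ^ K * (l0 + 2 ^ L * j) := by
    have h1 : 2 ^ (K + L) ∣ n - (n0 + 2 ^ K * l0) := (Nat.modEq_iff_dvd' hn).1 (Eq.symm hmod)
    obtain ⟨j, hj⟩ := h1
    refine ⟨j, ?_⟩
    have : n = n0 + 2 ^ K * l0 + 2 ^ (K + L) * j := by omega
    rw [this, pow_add]
    ring
  have hMer : Mer m K n := by
    rw [hj]; exact mer_class hsize hM hK _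
  have hz : Tn^[K] n = S + 3 ^ s * (l0 + 2 ^ L * j) := by
    have p1 := (Pool.Agent.Helper894.Collatz.period K n0 (l0 + 2 ^ L * j)).1
    rw [Tn_eq] at p1
    rw [hj, p1]
  set z := Tn^[K] n with hzd
  have hdvd : 2 ^ L ∣ z + 1 := by
    rw [hz]
    have : S + 3 ^ s * (l0 + 2 ^ L * j) + 1 = (S + 3 ^ s * l0 + 1) + 2 ^ L * (3 ^ s * j) := by ring
    rw [this]
    exact Dvd.dvd.add hl0 (Dvd.intro _ rfl)
  obtain ⟨w, hw⟩ := hdvd
  have hw1 : 1 ≤ w := by
    rcases Nat.eq_zero_or_pos w with h | h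
    · rw [h] at hw; omega
    · exact h
  have hzw : z = 2 ^ L * w - 1 := by omega
  have hup : Tn^[L] z = 3 ^ L * w - 1 := by rw [hzw]; exact up L w hw1
  set M := Tn^[L] z with hMd
  have hMt : (M : ℕ∞) ≤ t z := le_t L z
  have hn1 : m + 2 ≤ n := by
    have h1 : m + 2 ≤ 3 ^ (K + m) * (m + 2) := Nat.le_mul_of_pos_left _ (by positivity)
    have h2 : n0 ≤ n := by omega
    omega
  have hMn : A * n ≤ M := by
    have h1 : n ≤ 2 ^ K * z := Tn_iter_ge n K
    have h2 : 3 ^ L * z ≤ 2 ^ L * M := by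
      have h3 : 1 ≤ 3 ^ L * w := Nat.one_le_iff_ne_zero.2 (by positivity)
      have h4 : 2 ^ L ≤ 3 ^ L := Nat.pow_le_pow_left (by norm_num) L
      have h5 : 2 ^ L * (M + 1) = 3 ^ L * (z + 1) := by
        have : M + 1 = 3 ^ L * w := by omega
        rw [this, hw]; ring
      have h6 : 2 ^ L * M + 2 ^ L = 3 ^ L * z + 3 ^ L := by
        calc 2 ^ L * M + 2 ^ L = 2 ^ L * (M + 1) := by ring
          _ = 3 ^ L * (z + 1) := h5
          _ = 3 ^ L * z + 3 ^ L := by ring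
      omega
    have h3 : (A * n) * 2 ^ (K + L) ≤ M * 2 ^ (K + L) := by
      calc (A * n) * 2 ^ (K + L) = (A * 2 ^ (K + L)) * n := by ring
        _ ≤ 3 ^ L * n := Nat.mul_le_mul_right _ hAL
        _ ≤ 3 ^ L * (2 ^ K * z) := Nat.mul_le_mul_left _ h1
        _ = 2 ^ K * (3 ^ L * z) := by ring
        _ ≤ 2 ^ K * (2 ^ L * M) := Nat.mul_le_mul_left _ h2
        _ = M * 2 ^ (K + L) := by rw [pow_add]; ring
    exact Nat.le_of_mul_le_mul_right h3 (by positivity)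
  have hA1 : 2 ^ K ≤ A := by
    rw [hA, pow_add, mul_assoc]
    apply Nat.le_mul_of_pos_right
    positivity
  have htn : t n = t z := by
    apply t_shift (M := M) _ hMt
    intro k hk
    calc Tn^[k] n ≤ 2 ^ k * n := Tn_iter_le (by omega) k
      _ ≤ 2 ^ K * n := Nat.mul_le_mul_right _ (Nat.pow_le_pow_right (by norm_num) hk)
      _ ≤ A * n := Nat.mul_le_mul_right _ hA1
      _ ≤ M := hMn
  refine ⟨t_lt_top.2 hb, fun a b r hab hr => ?_⟩
  set C : ℕ := 2 ^ a * 3 ^ b with hC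
  have hC1 : 1 ≤ C := Nat.one_le_iff_ne_zero.2 (by positivity)
  have hCm : C ≤ 2 ^ m * 3 ^ m := Nat.mul_le_mul (Nat.pow_le_pow_right (by norm_num) (by omega))
    (Nat.pow_le_pow_right (by norm_num) (by omega))
  have hr2 := abs_le.1 hr
  have hnz : ((m : ℤ) + 2) ≤ n := by exact_mod_cast hn1
  have hCn : (n : ℤ) ≤ C * n := by
    have : (1 : ℤ) ≤ C := by exact_mod_cast hC1
    nlinarith [Int.natCast_nonneg n]
  have hpos : 0 ≤ (C : ℤ) * n + r := by linarith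
  have hyc := nb_cast hpos
  have hy1 : 1 ≤ nb C r n := by
    have : (1 : ℤ) ≤ nb C r n := by rw [hyc]; linarith
    exact_mod_cast this
  have hyA : nb C r n ≤ (2 ^ m * 3 ^ m + m) * n := by
    have h1 : ((nb C r n : ℕ) : ℤ) ≤ ((C * n + m : ℕ) : ℤ) := by
      rw [hyc]; push_cast; linarith
    have h2 : nb C r n ≤ C * n + m := by exact_mod_cast h1
    have h3 : C * n ≤ (2 ^ m * 3 ^ m) * n := Nat.mul_le_mul_right _ hCm
    have h4 : m ≤ m * n := Nat.le_mul_of_pos_right _ (by omega)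
    calc nb C r n ≤ (2 ^ m * 3 ^ m) * n + m * n := by omega
      _ = _ := by ring
  have hmer := hMer a b r hab hr hpos
  have hty : t (nb C r n) = t (Tn^[K + a] (nb C r n)) := by
    apply t_shift (M := M)
    · intro k hk
      calc Tn^[k] (nb C r n) ≤ 2 ^ k * nb C r n := Tn_iter_le hy1 k
        _ ≤ 2 ^ (K + m) * nb C r n := Nat.mul_le_mul_right _ (Nat.pow_le_pow_right (by norm_num) (by omega))
        _ ≤ 2 ^ (K + m) * ((2 ^ m * 3 ^ m + m) * n) := Nat.mul_le_mul_left _ hyA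
        _ = A * n := by rw [hA]; ring
        _ ≤ M := hMn
    · rw [← hmer]; exact hMt
  rw [hty, ← hmer, htn]

/-- the triples as pairs -/
def prs (Y : Finset (ℕ × ℕ × ℤ)) : Finset (ℕ × ℤ) := Y.image fun p => (2 ^ p.1 * 3 ^ p.2.1, p.2.2)

theorem density_pos (Y : Finset (ℕ × ℕ × ℤ)) : ∃ l, 0 < l ∧ Dn (E (prs Y)) l := by
  classical
  obtain ⟨β, hβ0, h1, h2, hβ⟩ := Bdd_density
  have hY : ∀ p ∈ prs Y, 1 ≤ p.1 := by
    intro p hp
    obtain ⟨x, -, rfl⟩ := mem_image.1 hp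
    exact Nat.one_le_iff_ne_zero.2 (by positivity)
  obtain ⟨l, hl⟩ := exists_density hY (by
    intro p hp
    obtain ⟨x, -, rfl⟩ := mem_image.1 hp
    exact bdd_same)
  refine ⟨l, ?_, hl⟩
  obtain ⟨q, N1, hq, hcl⟩ := exists_class (Y.sup fun p => p.1 + p.2.1 + p.2.2.natAbs)
  have h3 : Dn (fun n => (n % q = N1 % q ∧ Bdd n) ∧ N1 ≤ n) (β / q) := by
    refine Dn_congr (inv_prog Bdd_inv hβ hq N1) ?_
    filter_upwards [eventually_ge_atTop N1] with n hn
    exact ⟨fun h => ⟨h, hn⟩, fun h => h.1⟩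
  have h4 : β / q ≤ l := by
    refine le_of_tendsto_of_tendsto' h3 hl fun N => ?_
    apply div_le_div_of_nonneg_right _ (Nat.cast_nonneg N)
    refine cnt_mono N fun n _ _ h => ?_
    obtain ⟨h5, h6⟩ := hcl n h.2 h.1.1 h.1.2
    refine ⟨h5, fun p hp => ?_⟩
    obtain ⟨x, hx, rfl⟩ := mem_image.1 hp
    have h7 : x.1 + x.2.1 + x.2.2.natAbs ≤ Y.sup fun p => p.1 + p.2.1 + p.2.2.natAbs :=
      Finset.le_sup (f := fun p : ℕ × ℕ × ℤ => p.1 + p.2.1 + p.2.2.natAbs) hx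
    apply h6 x.1 x.2.1 x.2.2 (by omega)
    have h8 : ((x.2.2.natAbs : ℕ) : ℤ) ≤ ((Y.sup fun p => p.1 + p.2.1 + p.2.2.natAbs : ℕ) : ℤ) := by
      exact_mod_cast (by omega : x.2.2.natAbs ≤ Y.sup fun p => p.1 + p.2.1 + p.2.2.natAbs)
    rwa [Int.natCast_natAbs] at h8
  have : 0 < β / q := by
    have : (0 : ℝ) < q := by exact_mod_cast hq
    positivity
  linarith

/-- upper bound for runs -/
theorem run_le {h : ℕ} (hh : 1 ≤ h) {l : ℝ}
    (hl : Dn (fun n => t n < ⊤ ∧ ∀ i ≤ h, t (n + i) = t n) l) :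
    l ≤ 3 / 2 * ((h : ℝ) + 1) ^ (-(Real.log (3 / 2) / Real.log 2)) := by
  classical
  obtain ⟨β, hβ0, hβ1, -, hβ⟩ := Bdd_density
  set a := Nat.log 2 (h + 1) with ha
  have ha1 : 1 ≤ a := by
    rw [Nat.one_le_iff_ne_zero, ← Nat.pos_iff_ne_zero]
    exact Nat.log_pos (by norm_num) (by omega)
  have ha2 : 2 ^ a ≤ h + 1 := Nat.pow_log_le_self 2 (by omega)
  have ha3 : h + 1 < 2 ^ (a + 1) := Nat.lt_pow_succ_log_self (by norm_num) _
  set lam : ℝ := (3 / 2) ^ a with hlam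
  have hlam1 : 1 ≤ lam := one_le_pow₀ (by norm_num)
  obtain ⟨q, -, hq1, hq2, hD⟩ := exc_law hβ hlam1
  -- the density of the large excursions
  have hle : l ≤ β - β * q := by
    have h1 : Tendsto (fun N : ℕ => cnt Bdd N / N - cnt (fun n => ∀ k, ((Tn^[k] n : ℕ) : ℝ) ≤ lam * n) N / N)
        atTop (𝓝 (β - β * q)) := Tendsto.sub hβ hD
    refine le_of_tendsto_of_tendsto' hl h1 fun N => ?_
    rw [← sub_div]
    apply div_le_div_of_nonneg_right _ (Nat.cast_nonneg N)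
    -- disjoint sets
    have h2 : cnt (fun n => t n < ⊤ ∧ ∀ i ≤ h, t (n + i) = t n) N +
        cnt (fun n => ∀ k, ((Tn^[k] n : ℕ) : ℝ) ≤ lam * n) N ≤ cnt Bdd N := by
      rw [cnt_eq, cnt_eq, cnt_eq]
      have hdis : Disjoint ((Icc 1 N).filter (fun n => t n < ⊤ ∧ ∀ i ≤ h, t (n + i) = t n))
          ((Icc 1 N).filter (fun n => ∀ k, ((Tn^[k] n : ℕ) : ℝ) ≤ lam * n)) := by
        rw [Finset.disjoint_left]
        intro n h3 h4
        rw [mem_filter, mem_Icc] at h3 h4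
        obtain ⟨⟨hn1, -⟩, htop, hrun⟩ := h3
        obtain ⟨-, hlow⟩ := h4
        -- `i` with `2 ^ a ∣ n + i + 1`
        obtain ⟨i, hi, w, hw⟩ : ∃ i, i ≤ h ∧ ∃ w, n + i + 1 = 2 ^ a * w := by
          set ρ := (n + 1) % 2 ^ a with hρ
          have h2a : 0 < 2 ^ a := by positivity
          have hρlt : ρ < 2 ^ a := Nat.mod_lt _ h2a
          have hdm := Nat.div_add_mod (n + 1) (2 ^ a)
          rcases Nat.eq_zero_or_pos ρ with h0 | h0
          · refine ⟨0, Nat.zero_le _, (n + 1) / 2 ^ a, ?_⟩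
            rw [← hρ, h0] at hdm
            omega
          · refine ⟨2 ^ a - ρ, by omega, (n + 1) / 2 ^ a + 1, ?_⟩
            rw [← hρ] at hdm
            rw [mul_add, mul_one]
            omega
        have hw1 : 1 ≤ w := by
          rcases Nat.eq_zero_or_pos w with h0 | h0
          · rw [h0] at hw; omega
          · exact h0
        have h5 : Tn^[a] (n + i) = 3 ^ a * w - 1 := by
          have : n + i = 2 ^ a * w - 1 := by omega
          rw [this]; exact up a w hw1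
        have h6 := le_t a (n + i)
        rw [h5, hrun i hi] at h6
        have h7 : t n ≤ ((⌊lam * n⌋₊ : ℕ) : ℕ∞) := iSup_le fun k => by
          exact_mod_cast Nat.le_floor (hlow k)
        have h8 : 3 ^ a * w - 1 ≤ ⌊lam * n⌋₊ := by exact_mod_cast h6.trans h7
        have h9 : ((3 ^ a * w - 1 : ℕ) : ℝ) ≤ lam * n :=
          le_trans (by exact_mod_cast h8) (Nat.floor_le (by positivity))
        have h10 : 1 ≤ 3 ^ a * w := Nat.one_le_iff_ne_zero.2 (by positivity)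
        rw [Nat.cast_sub h10] at h9
        push_cast at h9
        have h11 : (2 : ℝ) ^ a * w = n + i + 1 := by exact_mod_cast hw.symm
        have h12 : (3 : ℝ) ^ a * w = lam * (n + i + 1) := by
          rw [← h11, hlam, div_pow]
          field_simp
        rw [h12] at h9
        have h13 : (3 / 2 : ℝ) ≤ lam := by
          calc (3 / 2 : ℝ) = (3 / 2) ^ 1 := by norm_num
            _ ≤ lam := pow_le_pow_right₀ (by norm_num) ha1
        have h14 : (0 : ℝ) ≤ i := Nat.cast_nonneg i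
        nlinarith
      rw [← Nat.cast_add, ← card_union_of_disjoint hdis]
      have : (Icc 1 N).filter (fun n => t n < ⊤ ∧ ∀ i ≤ h, t (n + i) = t n) ∪
          (Icc 1 N).filter (fun n => ∀ k, ((Tn^[k] n : ℕ) : ℝ) ≤ lam * n) ⊆ (Icc 1 N).filter Bdd := by
        intro n hn
        rw [mem_union, mem_filter, mem_filter] at hn
        rw [mem_filter]
        rcases hn with hn | hn
        · exact ⟨hn.1, t_lt_top.1 hn.2.1⟩
        · exact ⟨hn.1, ⌊lam * n⌋₊, fun k => Nat.le_floor (hn.2 k)⟩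
      exact_mod_cast card_le_card this
    linarith
  have h1 : l ≤ 1 / lam := by
    have h2 : β * (1 - q) ≤ 1 * (1 / lam) := by
      apply mul_le_mul hβ1 (by linarith) (by linarith) (by norm_num)
    linarith
  refine h1.trans ?_
  have hl2 : 0 < Real.log 2 := Real.log_pos (by norm_num)
  have hl32 : 0 < Real.log (3 / 2) := Real.log_pos (by norm_num)
  have h2 : ((h : ℝ) + 1) ≤ 2 ^ (a + 1) := by exact_mod_cast ha3.le
  have h3 : ((2 : ℝ) ^ (a + 1)) ^ (-(Real.log (3 / 2) / Real.log 2)) ≤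
      ((h : ℝ) + 1) ^ (-(Real.log (3 / 2) / Real.log 2)) := by
    apply Real.rpow_le_rpow_of_nonpos (by positivity) h2
    have : 0 < Real.log (3 / 2) / Real.log 2 := by positivity
    linarith
  have h4 : ((2 : ℝ) ^ (a + 1)) ^ (-(Real.log (3 / 2) / Real.log 2)) = 1 / (3 / 2) ^ (a + 1) := by
    rw [Real.rpow_def_of_pos (by positivity), Real.log_pow]
    have : ((a + 1 : ℕ) : ℝ) * Real.log 2 * -(Real.log (3 / 2) / Real.log 2) =
        -Real.log ((3 / 2) ^ (a + 1)) := by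
      rw [Real.log_pow]; field_simp
    rw [this, Real.exp_neg, Real.exp_log (by positivity), one_div]
  rw [h4] at h3
  have h5 : 1 / lam = 3 / 2 * (1 / (3 / 2) ^ (a + 1)) := by
    rw [hlam, pow_succ]; field_simp
  rw [h5]
  apply mul_le_mul_of_nonneg_left h3 (by norm_num)

end Pool.Agent.X16.EE
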